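import Pool.Agent.V7H30.HD.Had
import Pool.Agent.V7H30.DW.Base

/-!
# Hadamard designs and Menon designs
-/

set_option autoImplicit false

namespace Pool.Agent.V7H30.HD

open Finset Pool.Agent.V7H30.DW

open Classical in
/-- the sign of a proposition -/
noncomputable def sgn (q : Prop) : ℤˣ := if q then 1 else -1

theorem sgn_mul (q r : Prop) : sgn q * sgn r = sgn (q ↔ r) := by
  classical
  by_cases hq : q <;> by_cases hr : r <;> simp [sgn, hq, hr]

theorem sgn_inj {q r : Prop} : sgn q = sgn r ↔ (q ↔ r) := by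
  classical
  by_cases hq : q <;> by_cases hr : r <;> simp [sgn, hq, hr]

theorem neg_sgn (q : Prop) : -sgn q = sgn (¬ q) := by
  classical
  by_cases hq : q <;> simp [sgn, hq]

open Classical in
theorem sum_sgn {X : Type*} [Fintype X] (S : Finset X) :
    ∑ x, (sgn (x ∈ S) : ℤ) = 2 * S.card - Fintype.card X := by
  have h1 : ∀ x, (sgn (x ∈ S) : ℤ) = 2 * (if x ∈ S then 1 else 0) - 1 := by
    intro x
    by_cases hx : x ∈ S <;> simp [sgn, hx]
  rw [sum_congr rfl fun x _ => h1 x, sum_sub_distrib, ← mul_sum, sum_const, card_univ, sum_boole,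
    nsmul_eq_mul, mul_one]
  simp

open Classical in
theorem sum_sgn_mul {X : Type*} [Fintype X] (S T : Finset X) :
    ∑ x, ((sgn (x ∈ S) * sgn (x ∈ T) : ℤˣ) : ℤ) =
      Fintype.card X - 2 * S.card - 2 * T.card + 4 * (S ∩ T).card := by
  have h1 : ∀ x, ((sgn (x ∈ S) * sgn (x ∈ T) : ℤˣ) : ℤ) =
      2 * (sgn (x ∈ S ∩ T) : ℤ) - (sgn (x ∈ S) : ℤ) - (sgn (x ∈ T) : ℤ) + 1 := by
    intro x
    by_cases hx : x ∈ S <;> by_cases hy : x ∈ T <;> simp [sgn, hx, hy]
  rw [sum_congr rfl fun x _ => h1 x, sum_add_distrib, sum_sub_distrib, sum_sub_distrib, ← mul_sum,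
    sum_sgn, sum_sgn, sum_sgn, sum_const, card_univ, nsmul_eq_mul, mul_one]
  ring

variable {P B : Type*} [Fintype P] [Fintype B]

/-- the normalised matrix of a Hadamard design -/
noncomputable def nmat (I : P → B → Prop) : Option P → Option B → ℤˣ
  | none, _ => 1
  | some _, none => 1
  | some x, some b => sgn (I x b)

end Pool.Agent.V7H30.HD

namespace Pool.Agent.V7H30.HD

open Finset Pool.Agent.V7H30.DW

variable {P B : Type} [Fintype P] [Fintype B]

theorem nmat_orth {I : P → B → Prop} {m : ℕ} (hm : 1 ≤ m)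
    (hD : Sym I (4 * m - 1) (2 * m - 1) (m - 1)) : Orth (nmat I) := by
  classical
  have hv : (Fintype.card B : ℤ) = 4 * m - 1 := by
    rw [hD.cardB]
    omega
  have h0 : ∀ x, ∑ c, ((nmat I none c * nmat I (some x) c : ℤˣ) : ℤ) = 0 := by
    intro x
    rw [Fintype.sum_option]
    have h1 : ∀ b, ((nmat I none (some b) * nmat I (some x) (some b) : ℤˣ) : ℤ) =
        (sgn (b ∈ thr I x) : ℤ) := by
      intro b
      rw [mem_thr]
      simp [nmat]
    rw [sum_congr rfl fun b _ => h1 b, sum_sgn, hD.pt, hv]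
    have h2 : ((nmat I none none * nmat I (some x) none : ℤˣ) : ℤ) = 1 := by simp [nmat]
    rw [h2]
    omega
  intro i j hij
  rcases i with _ | x <;> rcases j with _ | y
  · exact absurd rfl hij
  · exact h0 y
  · rw [← h0 x]
    exact sum_congr rfl fun c _ => by rw [mul_comm]
  · have hxy : x ≠ y := fun h => hij (by rw [h])
    rw [Fintype.sum_option]
    have h1 : ∀ b, ((nmat I (some x) (some b) * nmat I (some y) (some b) : ℤˣ) : ℤ) =
        ((sgn (b ∈ thr I x) * sgn (b ∈ thr I y) : ℤˣ) : ℤ) := by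
      intro b
      rw [mem_thr, mem_thr]
      rfl
    rw [sum_congr rfl fun b _ => h1 b, sum_sgn_mul, hD.pt, hD.pt, hv]
    have h2 : ((nmat I (some x) none * nmat I (some y) none : ℤˣ) : ℤ) = 1 := by simp [nmat]
    have h3 : (thr I x ∩ thr I y).card = m - 1 := hD.pp x y hxy
    rw [h2, h3]
    omega

/-- The third point of a line. -/
theorem third {I : P → B → Prop} {m : ℕ} (hm : 1 ≤ m)
    (hD : Sym I (4 * m - 1) (2 * m - 1) (m - 1)) {x y z : P} (hxy : x ≠ y) (hzx : z ≠ x)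
    (hzy : z ≠ y) (h : ∀ b, I x b → I y b → I z b) (b : B) : (I z b ↔ (I x b ↔ I y b)) := by
  classical
  have h1 : thr I x ∩ thr I y ⊆ thr I x ∩ thr I z := by
    intro c hc
    rw [mem_inter, mem_thr, mem_thr] at hc ⊢
    exact ⟨hc.1, h c hc.1 hc.2⟩
  have h2 : thr I x ∩ thr I y ⊆ thr I y ∩ thr I z := by
    intro c hc
    rw [mem_inter, mem_thr, mem_thr] at hc ⊢
    exact ⟨hc.2, h c hc.1 hc.2⟩
  have c1 : (thr I x ∩ thr I y).card = m - 1 := hD.pp x y hxy
  have c2 : (thr I x ∩ thr I z).card = m - 1 := hD.pp x z hzx.symm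
  have c3 : (thr I y ∩ thr I z).card = m - 1 := hD.pp y z hzy.symm
  have e1 : thr I x ∩ thr I y = thr I x ∩ thr I z := eq_of_subset_of_card_le h1 (by omega)
  have e2 : thr I x ∩ thr I y = thr I y ∩ thr I z := eq_of_subset_of_card_le h2 (by omega)
  have e3 : (thr I x ∪ thr I y) ∩ thr I z = thr I x ∩ thr I y := by
    rw [union_inter_distrib_right, ← e1, ← e2, union_self]
  have s1 := card_union_add_card_inter (thr I x) (thr I y)
  have s2 := card_union_add_card_inter (thr I x ∪ thr I y) (thr I z)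
  rw [e3] at s2
  rw [hD.pt, hD.pt, c1] at s1
  rw [hD.pt, c1] at s2
  have h3 : thr I x ∪ thr I y ∪ thr I z = univ := by
    rw [← card_eq_iff_eq_univ, hD.cardB]
    omega
  have h4 : b ∈ thr I x ∪ thr I y ∪ thr I z := by
    rw [h3]
    exact mem_univ b
  rw [mem_union, mem_union, mem_thr, mem_thr, mem_thr] at h4
  have h5 : I x b ∧ I z b → I y b := by
    intro h6
    have h7 : b ∈ thr I x ∩ thr I y := by
      rw [e1, mem_inter, mem_thr, mem_thr]
      exact h6
    rw [mem_inter, mem_thr, mem_thr] at h7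
    exact h7.2
  have h6 : I y b ∧ I z b → I x b := by
    intro h6
    have h7 : b ∈ thr I x ∩ thr I y := by
      rw [e2, mem_inter, mem_thr, mem_thr]
      exact h6
    rw [mem_inter, mem_thr, mem_thr] at h7
    exact h7.1
  have h7 := h b
  tauto

theorem hadamard_case {I : P → B → Prop} {m : ℕ} (hm : 1 ≤ m)
    (hD : Sym I (4 * m - 1) (2 * m - 1) (m - 1)) (hp : ¬ ∃ k, 4 * m = 2 ^ k) :
    2 * (4 * m) ^ 2 ≤ 9 * {p : P × P | p.1 ≠ p.2 ∧
      ∀ z, z ≠ p.1 → z ≠ p.2 → ∃ b, I p.1 b ∧ I p.2 b ∧ ¬ I z b}.ncard := by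
  classical
  have hcard : Fintype.card (Option P) = 4 * m := by
    rw [Fintype.card_option, hD.cardP]
    omega
  have hcard' : Fintype.card (Option P) = Fintype.card (Option B) := by
    rw [Fintype.card_option, Fintype.card_option, hD.cardP, hD.cardB]
  by_contra hlt
  rw [not_le] at hlt
  apply hp
  rw [← hcard]
  refine pow_two_of_close (nmat_orth hm hD) none hcard' ?_
  rw [hcard]
  refine lt_of_le_of_lt (Nat.mul_le_mul_left 9 ?_) hlt
  have h1 : bads (nmat I) none ⊆ (fun p : P × P => (some p.1, some p.2)) ''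
      {p : P × P | p.1 ≠ p.2 ∧ ∀ z, z ≠ p.1 → z ≠ p.2 → ∃ b, I p.1 b ∧ I p.2 b ∧ ¬ I z b} := by
    rintro ⟨i, j⟩ hij
    rcases i with _ | x
    · exact absurd ⟨j, Or.inl fun c => by simp [nmat]⟩ hij
    rcases j with _ | y
    · exact absurd ⟨some x, Or.inl fun c => by simp [nmat]⟩ hij
    have hxy : x ≠ y := by
      intro h2
      subst h2
      exact hij ⟨none, Or.inl fun c => by
        change (1 : ℤˣ) * nmat I (some x) c * nmat I (some x) c = 1
        rw [one_mul, unit_sq]⟩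
    refine ⟨(x, y), ⟨hxy, fun z hzx hzy => ?_⟩, rfl⟩
    by_contra h2
    push Not at h2
    refine hij ⟨some z, Or.inl fun c => ?_⟩
    have h3 := third hm hD hxy hzx hzy h2
    rcases c with _ | b
    · simp [nmat]
    · change (1 : ℤˣ) * sgn (I x b) * sgn (I y b) = sgn (I z b)
      rw [one_mul, sgn_mul, sgn_inj]
      exact (h3 b).symm
  exact (Set.ncard_le_ncard h1 (Set.toFinite _)).trans (Set.ncard_image_le (Set.toFinite _))

theorem menon_case {I : P → B → Prop} {v k l : ℕ} (hD : Sym I v k l) (hv : v + 4 * l = 4 * k)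
    (hp : ¬ ∃ e, v = 2 ^ e) (a : B) :
    2 * v ^ 2 ≤ 9 * {p : B × B | ¬ ∃ c, (∀ x, (I x a ↔ (I x p.1 ↔ I x p.2)) ↔ I x c) ∨
      (∀ x, (I x a ↔ (I x p.1 ↔ I x p.2)) ↔ ¬ I x c)}.ncard := by
  classical
  by_contra hlt
  rw [not_le] at hlt
  apply hp
  have hvP : 0 < Fintype.card P := by
    rw [hD.cardP, ← hD.cardB]
    exact Fintype.card_pos_iff.2 ⟨a⟩
  have : Nonempty P := Fintype.card_pos_iff.1 hvP
  have h0 : Orth (fun (b : B) (x : P) => sgn (I x b)) := by
    intro b c hbc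
    have h1 : ∀ x, ((sgn (I x b) * sgn (I x c) : ℤˣ) : ℤ) =
        ((sgn (x ∈ pts I b) * sgn (x ∈ pts I c) : ℤˣ) : ℤ) := by
      intro x
      rw [mem_pts, mem_pts]
    have h3 : (pts I b ∩ pts I c).card = l := hD.bb b c hbc
    rw [sum_congr rfl fun x _ => h1 x, sum_sgn_mul, hD.bl, hD.bl, hD.cardP, h3]
    omega
  have h1 := pow_two_of_close h0 a (by rw [hD.cardB, hD.cardP]) (by
    rw [hD.cardB]
    refine lt_of_le_of_lt (Nat.mul_le_mul_left 9 ?_) hlt
    refine Set.ncard_le_ncard ?_ (Set.toFinite _)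
    rintro ⟨b, c⟩ hbc hd
    apply hbc
    obtain ⟨d, hd⟩ := hd
    refine ⟨d, ?_⟩
    rcases hd with hd | hd
    · left
      intro x
      change sgn (I x a) * sgn (I x b) * sgn (I x c) = sgn (I x d)
      rw [mul_assoc, sgn_mul, sgn_mul, sgn_inj]
      exact hd x
    · right
      intro x
      change sgn (I x a) * sgn (I x b) * sgn (I x c) = -sgn (I x d)
      rw [mul_assoc, sgn_mul, sgn_mul, neg_sgn, sgn_inj]
      exact hd x)
  rwa [hD.cardB] at h1

end Pool.Agent.V7H30.HD
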