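import Pool.Agent.V7H30.HD.Near

/-!
# Orthogonal families of sign vectors which are nearly closed under products
-/

set_option autoImplicit false

namespace Pool.Agent.V7H30.HD

open Finset

variable {I J : Type*} [Fintype I] [Fintype J]

theorem unit_sq (u : ℤˣ) : u * u = 1 := Int.units_mul_self u

/-- The rows `h i` are pairwise orthogonal. -/
def Orth (h : I → J → ℤˣ) : Prop := ∀ i j, i ≠ j → ∑ c, ((h i c * h j c : ℤˣ) : ℤ) = 0

/-- The pairs `(i, j)` for which the product of the rows `p, i, j` is not a row or the negative of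
a row. -/
def bads (h : I → J → ℤˣ) (p : I) : Set (I × I) :=
  {x | ¬ ∃ k, (∀ c, h p c * h x.1 c * h x.2 c = h k c) ∨
    (∀ c, h p c * h x.1 c * h x.2 c = - h k c)}

/-- `± h p * h i` -/
def sg (h : I → J → ℤˣ) (p : I) (x : I × ℤˣ) : J → ℤˣ := fun c => x.2 * (h p c * h x.1 c)

omit [Fintype I] in
theorem sg_inj [Nonempty J] {h : I → J → ℤˣ} (hh : Orth h) (p : I) :
    Function.Injective (sg h p) := by
  intro x y hxy
  have hc : ∀ c, x.2 * h x.1 c = y.2 * h y.1 c := by
    intro c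
    have h1 : x.2 * (h p c * h x.1 c) = y.2 * (h p c * h y.1 c) := congrFun hxy c
    have h2 : h p c * (x.2 * h x.1 c) = h p c * (y.2 * h y.1 c) := by
      rw [← mul_assoc, mul_comm (h p c), mul_assoc, h1, ← mul_assoc, mul_comm y.2, mul_assoc]
    exact mul_left_cancel h2
  have h1 : x.1 = y.1 := by
    by_contra hne
    have h2 := hh _ _ hne
    have h3 : ∀ c, ((h x.1 c * h y.1 c : ℤˣ) : ℤ) = ((x.2 * y.2 : ℤˣ) : ℤ) := by
      intro c
      congr 1
      have h4 := hc c
      calc h x.1 c * h y.1 c = x.2 * x.2 * (h x.1 c * h y.1 c) := by rw [unit_sq, one_mul]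
        _ = x.2 * (x.2 * h x.1 c) * h y.1 c := by simp only [mul_assoc]
        _ = x.2 * (y.2 * h y.1 c) * h y.1 c := by rw [h4]
        _ = x.2 * y.2 * (h y.1 c * h y.1 c) := by simp only [mul_assoc]
        _ = x.2 * y.2 := by rw [unit_sq, mul_one]
    rw [sum_congr rfl fun c _ => h3 c, sum_const, card_univ, nsmul_eq_mul] at h2
    rcases mul_eq_zero.1 h2 with h4 | h4
    · have := Fintype.card_pos (α := J)
      have h5 : Fintype.card J = 0 := by exact_mod_cast h4
      omega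
    · exact (Units.ne_zero _) h4
  refine Prod.ext h1 ?_
  obtain ⟨c⟩ := ‹Nonempty J›
  have h2 := hc c
  rw [h1] at h2
  exact mul_right_cancel h2

open Classical in
/-- the signed rows, divided by the row `p` -/
noncomputable def sset (h : I → J → ℤˣ) (p : I) : Finset (J → ℤˣ) := univ.image (sg h p)

open Classical in
theorem mem_sset {h : I → J → ℤˣ} {p : I} {g : J → ℤˣ} : g ∈ sset h p ↔ ∃ x, sg h p x = g := by
  simp [sset]

theorem card_sset [Nonempty J] {h : I → J → ℤˣ} (hh : Orth h) (p : I) :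
    (sset h p).card = 2 * Fintype.card I := by
  classical
  rw [sset, card_image_of_injective _ (sg_inj hh p), card_univ, Fintype.card_prod]
  have : Fintype.card ℤˣ = 2 := by decide
  rw [this, mul_comm]

omit [Fintype I] [Fintype J] in
theorem sg_mul (h : I → J → ℤˣ) (p : I) (x y : I × ℤˣ) :
    sg h p x * sg h p y = fun c => (x.2 * y.2) * (h x.1 c * h y.1 c) := by
  funext c
  have h1 : h p c * h p c = 1 := unit_sq _
  calc (sg h p x * sg h p y) c = x.2 * (h p c * h x.1 c) * (y.2 * (h p c * h y.1 c)) := rfl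
    _ = (h p c * h p c) * ((x.2 * y.2) * (h x.1 c * h y.1 c)) := by
        simp only [mul_comm, mul_left_comm, mul_assoc]
    _ = _ := by rw [h1, one_mul]

open Classical in
theorem card_bad (h : I → J → ℤˣ) (p : I) : (bad (sset h p)).card ≤ 4 * (bads h p).ncard := by
  classical
  have h1 : bad (sset h p) ⊆ ((bads h p).toFinset ×ˢ (univ : Finset (ℤˣ × ℤˣ))).image
      fun z => (sg h p (z.1.1, z.2.1), sg h p (z.1.2, z.2.2)) := by
    rintro ⟨s, t⟩ hst
    obtain ⟨h2, h3⟩ := mem_filter.1 hst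
    obtain ⟨h4, h5⟩ := mem_product.1 h2
    obtain ⟨x, rfl⟩ := mem_sset.1 h4
    obtain ⟨y, rfl⟩ := mem_sset.1 h5
    refine mem_image.2 ⟨((x.1, y.1), (x.2, y.2)), ?_, rfl⟩
    refine mem_product.2 ⟨?_, mem_univ _⟩
    rw [Set.mem_toFinset]
    intro hk
    apply h3
    change sg h p x * sg h p y ∈ _
    obtain ⟨k, hk⟩ := hk
    have key : ∀ e : ℤˣ, (∀ c, h p c * h x.1 c * h y.1 c = e * h k c) →
        sg h p x * sg h p y ∈ sset h p := by
      intro e he
      refine mem_sset.2 ⟨(k, x.2 * y.2 * e), ?_⟩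
      rw [sg_mul]
      funext c
      have h6 := he c
      calc x.2 * y.2 * e * (h p c * h k c) = x.2 * y.2 * (h p c * (e * h k c)) := by
            simp only [mul_comm, mul_left_comm, mul_assoc]
        _ = x.2 * y.2 * (h p c * (h p c * h x.1 c * h y.1 c)) := by rw [← h6]
        _ = (h p c * h p c) * (x.2 * y.2 * (h x.1 c * h y.1 c)) := by
            simp only [mul_comm, mul_left_comm, mul_assoc]
        _ = _ := by rw [unit_sq, one_mul]
    rcases hk with hk | hk
    · exact key 1 fun c => by rw [one_mul]; exact hk c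
    · exact key (-1) fun c => by rw [neg_one_mul]; exact hk c
  refine (card_le_card h1).trans (card_image_le.trans ?_)
  rw [card_product, card_univ, ← Set.ncard_eq_toFinset_card']
  have : Fintype.card (ℤˣ × ℤˣ) = 4 := by decide
  rw [this, mul_comm]

/-- If more than seven ninths of the pairs close, the order is a power of two. -/
theorem pow_two_of_close [Nonempty J] {h : I → J → ℤˣ} (hh : Orth h) (p : I)
    (hIJ : Fintype.card I = Fintype.card J)
    (hb : 9 * (bads h p).ncard < 2 * Fintype.card I ^ 2) : ∃ k, Fintype.card I = 2 ^ k := by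
  classical
  set n := Fintype.card I with hn
  have hG : ∀ g : J → ℤˣ, g * g = 1 := fun g => funext fun c => unit_sq _
  have hS : 9 * (bad (sset h p)).card < 2 * (sset h p).card ^ 2 := by
    rw [card_sset hh]
    have h1 := card_bad h p
    nlinarith
  set H := hull hG hS with hH
  have hn0 : 0 < n := Fintype.card_pos_iff.2 ⟨p⟩
  have hHc : n < Nat.card H := by
    have h1 : 2 * (sset h p).card < 3 * Nat.card H := card_hull hG hS
    rw [card_sset hh] at h1
    omega
  -- sums of the members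
  have hsum : ∀ g ∈ H, g ≠ 1 → g ≠ -1 → ∑ c, (g c : ℤ) = 0 := by
    intro g hg h1 h2
    rw [mem_hull] at hg
    have h3 : 0 < (rr (sset h p) g).card := by omega
    obtain ⟨s, hs⟩ := card_pos.1 h3
    obtain ⟨hs1, hs2⟩ := mem_filter.1 hs
    obtain ⟨x, rfl⟩ := mem_sset.1 hs1
    obtain ⟨y, hy⟩ := mem_sset.1 hs2
    have h4 : g = fun c => (y.2 * x.2) * (h y.1 c * h x.1 c) := by
      rw [← sg_mul h p, hy, mul_assoc, hG, mul_one]
    have hyx : y.1 ≠ x.1 := by
      intro h5
      have h6 : g = fun _ => y.2 * x.2 := by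
        rw [h4]
        funext c
        rw [h5, unit_sq, mul_one]
      rcases Int.units_eq_one_or (y.2 * x.2) with h7 | h7
      · rw [h7] at h6
        exact h1 h6
      · rw [h7] at h6
        exact h2 h6
    rw [h4]
    have h5 := hh _ _ hyx
    calc ∑ c, (((y.2 * x.2) * (h y.1 c * h x.1 c) : ℤˣ) : ℤ) =
        ∑ c, ((y.2 * x.2 : ℤˣ) : ℤ) * ((h y.1 c * h x.1 c : ℤˣ) : ℤ) :=
          sum_congr rfl fun c _ => Units.val_mul _ _
      _ = 0 := by rw [← mul_sum, h5, mul_zero]
  -- minus one is a member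
  have hneg : (-1 : J → ℤˣ) ∈ H := by
    rw [mem_hull]
    have h1 : rr (sset h p) (-1) = sset h p := by
      refine filter_true_of_mem fun s hs => ?_
      obtain ⟨x, rfl⟩ := mem_sset.1 hs
      refine mem_sset.2 ⟨(x.1, -x.2), ?_⟩
      funext c
      simp [sg]
    rw [h1, card_sset hh]
    have : 0 < n := Fintype.card_pos_iff.2 ⟨p⟩
    omega
  -- orthogonality of characters
  obtain ⟨c₀⟩ := ‹Nonempty J›
  have hdiv : Nat.card H ∣ 2 * n := by
    have h1 : ∑ g : H, ((g : J → ℤˣ) c₀ : ℤ) * ∑ c, ((g : J → ℤˣ) c : ℤ) = 2 * n := by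
      set a : H := 1 with ha
      set b : H := ⟨-1, hneg⟩ with hb
      have hab : b ≠ a := by
        intro h2
        have h3 : ((b : J → ℤˣ) c₀) = ((a : J → ℤˣ) c₀) := by rw [h2]
        have h4 : (-1 : ℤˣ) = 1 := h3
        exact absurd h4 (by decide)
      have e5 : ∑ g ∈ (univ.erase a).erase b,
          ((g : J → ℤˣ) c₀ : ℤ) * ∑ c, ((g : J → ℤˣ) c : ℤ) = 0 := by
        refine sum_eq_zero fun g hg => ?_
        have hgb := (mem_erase.1 hg).1
        have hga := (mem_erase.1 (mem_erase.1 hg).2).1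
        rw [hsum g g.2 (fun h2 => hga (Subtype.ext h2)) (fun h2 => hgb (Subtype.ext h2)), mul_zero]
      rw [← add_sum_erase _ _ (mem_univ a),
        ← add_sum_erase _ _ (mem_erase.2 ⟨hab, mem_univ b⟩), e5]
      have e1 : (((a : J → ℤˣ) c₀ : ℤˣ) : ℤ) = 1 := rfl
      have e2 : ∑ c, (((a : J → ℤˣ) c : ℤˣ) : ℤ) = n := by
        have : ∀ c, (((a : J → ℤˣ) c : ℤˣ) : ℤ) = 1 := fun c => rfl
        rw [sum_congr rfl fun c _ => this c, sum_const, card_univ, nsmul_eq_mul, mul_one, ← hIJ]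
      have e3 : (((b : J → ℤˣ) c₀ : ℤˣ) : ℤ) = -1 := rfl
      have e4 : ∑ c, (((b : J → ℤˣ) c : ℤˣ) : ℤ) = -n := by
        have : ∀ c, (((b : J → ℤˣ) c : ℤˣ) : ℤ) = -1 := fun c => rfl
        rw [sum_congr rfl fun c _ => this c, sum_const, card_univ, nsmul_eq_mul, mul_neg, mul_one,
          ← hIJ]
      rw [e1, e2, e3, e4]
      ring
    have h2 : ∑ g : H, ((g : J → ℤˣ) c₀ : ℤ) * ∑ c, ((g : J → ℤˣ) c : ℤ) =
        ∑ c, ∑ g : H, (((g : J → ℤˣ) c₀ * (g : J → ℤˣ) c : ℤˣ) : ℤ) := by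
      rw [sum_comm]
      refine sum_congr rfl fun g _ => ?_
      rw [mul_sum]
      exact sum_congr rfl fun c _ => (Units.val_mul _ _).symm
    have h3 : ∀ c, (Nat.card H : ℤ) ∣ ∑ g : H, (((g : J → ℤˣ) c₀ * (g : J → ℤˣ) c : ℤˣ) : ℤ) := by
      intro c
      by_cases h4 : ∀ g : H, (g : J → ℤˣ) c₀ = (g : J → ℤˣ) c
      · have h5 : ∀ g : H, (((g : J → ℤˣ) c₀ * (g : J → ℤˣ) c : ℤˣ) : ℤ) = 1 := by
          intro g
          rw [h4 g, unit_sq]
          rfl
        rw [sum_congr rfl fun g _ => h5 g, sum_const, card_univ, nsmul_eq_mul, mul_one,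
          Nat.card_eq_fintype_card]
      · push Not at h4
        obtain ⟨g₀, hg₀⟩ := h4
        have h5 : (g₀ : J → ℤˣ) c₀ * (g₀ : J → ℤˣ) c = -1 := by
          rcases Int.units_eq_one_or ((g₀ : J → ℤˣ) c₀) with h6 | h6 <;>
            rcases Int.units_eq_one_or ((g₀ : J → ℤˣ) c) with h7 | h7 <;>
            simp_all
        have h6 : ∑ g : H, (((g : J → ℤˣ) c₀ * (g : J → ℤˣ) c : ℤˣ) : ℤ) =
            -∑ g : H, (((g : J → ℤˣ) c₀ * (g : J → ℤˣ) c : ℤˣ) : ℤ) := by
          have e1 := Equiv.sum_comp (Equiv.mulLeft g₀)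
            fun g : H => (((g : J → ℤˣ) c₀ * (g : J → ℤˣ) c : ℤˣ) : ℤ)
          rw [← sum_neg_distrib, ← e1]
          refine sum_congr rfl fun g _ => ?_
          rw [Equiv.coe_mulLeft]
          have h8 : (((g₀ * g : H) : J → ℤˣ) c₀ * ((g₀ * g : H) : J → ℤˣ) c : ℤˣ) =
              -((g : J → ℤˣ) c₀ * (g : J → ℤˣ) c) := by
            calc (((g₀ * g : H) : J → ℤˣ) c₀ * ((g₀ * g : H) : J → ℤˣ) c : ℤˣ) =
                ((g₀ : J → ℤˣ) c₀ * (g : J → ℤˣ) c₀) * ((g₀ : J → ℤˣ) c * (g : J → ℤˣ) c) := rfl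
              _ = ((g₀ : J → ℤˣ) c₀ * (g₀ : J → ℤˣ) c) * ((g : J → ℤˣ) c₀ * (g : J → ℤˣ) c) :=
                  mul_mul_mul_comm _ _ _ _
              _ = _ := by rw [h5, neg_one_mul]
          rw [h8, Units.val_neg]
        have h7 : ∑ g : H, (((g : J → ℤˣ) c₀ * (g : J → ℤˣ) c : ℤˣ) : ℤ) = 0 := by omega
        rw [h7]
        exact dvd_zero _
    have h4 : (Nat.card H : ℤ) ∣ 2 * n := by
      rw [← h1, h2]
      exact dvd_sum fun c _ => h3 c
    exact_mod_cast h4
  -- the order of the subgroup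
  have hpow : ∃ k, Nat.card H = 2 ^ k := by
    have : Fact (Nat.Prime 2) := ⟨Nat.prime_two⟩
    rw [← IsPGroup.iff_card]
    intro g
    refine ⟨1, ?_⟩
    rw [pow_one, pow_two]
    exact Subtype.ext (hG g)
  obtain ⟨k, hk⟩ := hpow
  obtain ⟨q, hq⟩ := hdiv
  have hq1 : q = 1 := by
    rcases Nat.lt_trichotomy q 1 with h1 | h1 | h1
    · have : q = 0 := by omega
      subst this
      omega
    · exact h1
    · nlinarith
  rw [hq1, mul_one, hk] at hq
  rcases k with _ | k
  · omega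
  · refine ⟨k, ?_⟩
    rw [pow_succ] at hq
    omega

end Pool.Agent.V7H30.HD
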