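import Mathlib

/-!
# Nearly closed subsets of elementary abelian 2-groups
-/

set_option autoImplicit false

namespace Pool.Agent.V7H30.HD

open Finset

variable {G : Type*} [CommGroup G] [DecidableEq G]

/-- the elements of `S` which `g` moves into `S` -/
def rr (S : Finset G) (g : G) : Finset G := S.filter fun s => g * s ∈ S

/-- the pairs whose product is not in `S` -/
def bad (S : Finset G) : Finset (G × G) := (S ×ˢ S).filter fun p => p.1 * p.2 ∉ S

theorem rr_mul (S : Finset G) (g h : G) :
    (rr S g).card + (rr S h).card ≤ (rr S (g * h)).card + S.card := by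
  have h1 : ((rr S h).image fun s => h * s) ⊆ S := by
    intro u hu
    obtain ⟨s, hs, rfl⟩ := mem_image.1 hu
    exact (mem_filter.1 hs).2
  have h2 : ((rr S h).image fun s => h * s).card = (rr S h).card :=
    card_image_of_injective _ (mul_right_injective h)
  have h3 : rr S g ⊆ S := filter_subset _ _
  have h4 : (rr S g ∪ (rr S h).image fun s => h * s).card ≤ S.card :=
    card_le_card (union_subset h3 h1)
  have h5 := card_union_add_card_inter (rr S g) ((rr S h).image fun s => h * s)
  have h6 : (rr S g ∩ (rr S h).image fun s => h * s).card ≤ (rr S (g * h)).card := by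
    refine card_le_card_of_injOn (fun u => h⁻¹ * u) ?_ (mul_right_injective h⁻¹).injOn
    intro u hu
    rw [mem_coe, mem_inter] at hu
    obtain ⟨hu1, hu2⟩ := hu
    obtain ⟨s, hs, rfl⟩ := mem_image.1 hu2
    have e1 : h⁻¹ * (h * s) = s := by group
    change h⁻¹ * (h * s) ∈ _
    rw [e1, mem_coe]
    refine mem_filter.2 ⟨(mem_filter.1 hs).1, ?_⟩
    rw [mul_assoc]
    exact (mem_filter.1 hu1).2
  omega

theorem rr_key (hG : ∀ g : G, g * g = 1) (S : Finset G) (g : G) :
    (rr S g).card * S.card ≤ (rr S g).card ^ 2 + (bad S).card := by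
  set D := rr S g with hD
  have hDS : D ⊆ S := filter_subset _ _
  have hgD : ∀ s ∈ D, g * s ∈ D := by
    intro s hs
    obtain ⟨h1, h2⟩ := mem_filter.1 hs
    refine mem_filter.2 ⟨h2, ?_⟩
    rw [← mul_assoc, hG, one_mul]
    exact h1
  have hnD : ∀ t ∈ S, t ∉ D → g * t ∉ S := fun t ht htD h => htD (mem_filter.2 ⟨ht, h⟩)
  have hss : ∀ s t : G, s * (s * t) = t := fun s t => by rw [← mul_assoc, hG, one_mul]
  have h1 : (D ×ˢ (S \ D)).card ≤ (bad S).card := by
    refine card_le_card_of_injOn (fun p => if p.1 * p.2 ∈ D then (g * p.1, p.1 * p.2) else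
      if p.1 * p.2 ∈ S then (p.2, g * p.1) else p) ?_ ?_
    · rintro ⟨s, t⟩ hp
      obtain ⟨hs, ht⟩ := mem_product.1 (mem_coe.1 hp)
      obtain ⟨htS, htD⟩ := mem_sdiff.1 ht
      simp only at hs htS htD ⊢
      rw [mem_coe]
      split_ifs with h2 h3
      · refine mem_filter.2 ⟨mem_product.2 ⟨hDS (hgD s hs), hDS h2⟩, ?_⟩
        change g * s * (s * t) ∉ S
        rw [mul_assoc, hss]
        exact hnD t htS htD
      · refine mem_filter.2 ⟨mem_product.2 ⟨htS, hDS (hgD s hs)⟩, ?_⟩
        change t * (g * s) ∉ S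
        rw [mul_left_comm, mul_comm t]
        exact hnD _ h3 h2
      · exact mem_filter.2 ⟨mem_product.2 ⟨hDS hs, htS⟩, h3⟩
    · rintro ⟨s, t⟩ hp ⟨s', t'⟩ hq hpq
      obtain ⟨hs, ht⟩ := mem_product.1 (mem_coe.1 hp)
      obtain ⟨htS, htD⟩ := mem_sdiff.1 ht
      obtain ⟨hs', ht'⟩ := mem_product.1 (mem_coe.1 hq)
      obtain ⟨htS', htD'⟩ := mem_sdiff.1 ht'
      simp only at hs htS htD hs' htS' htD' hpq
      split_ifs at hpq with h2 h3 h4 h5 h6 h7 h8
      · obtain ⟨e1, e2⟩ := Prod.mk.inj hpq
        have e3 := mul_left_cancel e1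
        rw [e3] at e2
        rw [e3, mul_left_cancel e2]
      · obtain ⟨e1, e2⟩ := Prod.mk.inj hpq
        exact absurd (e1 ▸ hgD s hs) htD'
      · obtain ⟨e1, e2⟩ := Prod.mk.inj hpq
        exact absurd (by rw [← e2]; assumption) htD'
      · obtain ⟨e1, e2⟩ := Prod.mk.inj hpq
        exact absurd (e1 ▸ hgD s' hs') htD
      · obtain ⟨e1, e2⟩ := Prod.mk.inj hpq
        rw [e1, mul_left_cancel e2]
      · obtain ⟨e1, e2⟩ := Prod.mk.inj hpq
        exact absurd (e1 ▸ hs') htD
      · obtain ⟨e1, e2⟩ := Prod.mk.inj hpq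
        exact absurd (by rw [e2]; assumption) htD
      · obtain ⟨e1, e2⟩ := Prod.mk.inj hpq
        exact absurd (e1 ▸ hs) htD'
      · exact hpq
  rw [card_product, card_sdiff_of_subset hDS, Nat.mul_sub] at h1
  rw [pow_two]
  omega

theorem rr_gap (hG : ∀ g : G, g * g = 1) {S : Finset G} (hS : 9 * (bad S).card < 2 * S.card ^ 2)
    {g : G} (hg : S.card < 3 * (rr S g).card) : 2 * S.card < 3 * (rr S g).card := by
  have h1 := rr_key hG S g
  by_contra h2
  push Not at h2
  nlinarith

theorem rr_one (S : Finset G) : rr S 1 = S := by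
  refine filter_true_of_mem fun s hs => ?_
  rwa [one_mul]

omit [DecidableEq G] in
theorem rr_inv (hG : ∀ g : G, g * g = 1) (g : G) : g⁻¹ = g := by
  rw [inv_eq_iff_mul_eq_one]
  exact hG g

/-- the subgroup of the elements which keep more than a third of `S` in `S` -/
def hull {S : Finset G} (hG : ∀ g : G, g * g = 1) (hS : 9 * (bad S).card < 2 * S.card ^ 2) :
    Subgroup G where
  carrier := {g | S.card < 3 * (rr S g).card}
  one_mem' := by
    have h1 : 0 < S.card := by
      rcases Nat.eq_zero_or_pos S.card with h | h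
      · rw [h] at hS
        omega
      · exact h
    change S.card < 3 * (rr S 1).card
    rw [rr_one]
    omega
  mul_mem' := by
    intro g h hg hh
    have h1 := rr_gap hG hS hg
    have h2 := rr_gap hG hS hh
    have h3 := rr_mul S g h
    change S.card < 3 * (rr S (g * h)).card
    omega
  inv_mem' := by
    intro g hg
    rw [rr_inv hG g]
    exact hg

theorem mem_hull {S : Finset G} (hG : ∀ g : G, g * g = 1) (hS : 9 * (bad S).card < 2 * S.card ^ 2)
    {g : G} : g ∈ hull hG hS ↔ S.card < 3 * (rr S g).card := Iff.rfl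

theorem card_hull [Fintype G] {S : Finset G} (hG : ∀ g : G, g * g = 1)
    (hS : 9 * (bad S).card < 2 * S.card ^ 2) : 2 * S.card < 3 * Nat.card (hull hG hS) := by
  classical
  have h0 : 0 < S.card := by
    rcases Nat.eq_zero_or_pos S.card with h | h
    · rw [h] at hS
      omega
    · exact h
  -- the sum
  have h1 : S.card * S.card = (bad S).card + ∑ g ∈ S, (rr S g).card := by
    have h2 : ∑ g ∈ S, (rr S g).card = ((S ×ˢ S).filter fun p => p.1 * p.2 ∈ S).card := by
      rw [card_filter, sum_product]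
      refine sum_congr rfl fun g _ => ?_
      rw [rr, card_filter]
    rw [h2, bad, ← card_product, add_comm]
    exact (card_filter_add_card_filter_not (s := S ×ˢ S) (fun p => p.1 * p.2 ∈ S)).symm
  set T := S.filter fun g => g ∈ hull hG hS with hT
  set U := S.filter fun g => g ∉ hull hG hS with hU
  have hTU : T.card + U.card = S.card := card_filter_add_card_filter_not _
  have h2 : ∑ g ∈ S, (rr S g).card = ∑ g ∈ T, (rr S g).card + ∑ g ∈ U, (rr S g).card :=
    (sum_filter_add_sum_filter_not S _ _).symm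
  have h3 : ∑ g ∈ T, (rr S g).card ≤ T.card * S.card := by
    rw [← smul_eq_mul, ← sum_const]
    exact sum_le_sum fun g _ => card_le_card (filter_subset _ _)
  have h4 : 3 * ∑ g ∈ U, (rr S g).card ≤ U.card * S.card := by
    rw [mul_sum, ← smul_eq_mul, ← sum_const]
    refine sum_le_sum fun g hg => ?_
    have h5 := (mem_filter.1 hg).2
    rw [mem_hull] at h5
    omega
  have h5 : 3 * U.card < S.card := by
    by_contra h6
    push Not at h6
    have h7 : T.card * S.card + U.card * S.card = S.card * S.card := by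
      rw [← add_mul, hTU]
    nlinarith
  have h6 : T.card ≤ Nat.card (hull hG hS) := by
    rw [Nat.card_eq_fintype_card, ← card_univ (α := (hull hG hS))]
    rw [← card_map ⟨((↑) : hull hG hS → G), Subtype.coe_injective⟩]
    refine card_le_card fun g hg => ?_
    rw [mem_map]
    exact ⟨⟨g, (mem_filter.1 hg).2⟩, mem_univ _, rfl⟩
  omega

end Pool.Agent.V7H30.HD
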